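import Pool.Agent.H57.CS.Targets
import Pool.Agent.H68.BT.Red

/-!
# Row CSN: the reduction to the structure on the names is computable in polynomial time
-/

set_option autoImplicit false

namespace Pool.Agent.H20.CS

open Pool.Agent.H1.NP Pool.Agent.H1.PNP
open Pool.Agent.H68.OQP hiding eN eE
open Pool.Agent.H68.NPH hiding prs eN
open Function
open Pool.Agent.H68.BP (ph cV cC eE eN eZ code code_eq CSP csp_code csp_true code_of_cV ph_vals
  strOf polyOn_numsR lgF)
open Pool.Agent.H68.BT (Wg)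
open Pool.Agent.H72.CH (sigN)
open Pool.Agent.H57.CS (blN T_CSN)

section rows

variable {σ : Pool.Agent.H68.BP.Sig} (m : ℕ) {l env : List ℕ}

/-- the row of the symbol `s` with the entries `F` -/
def rowB {α : Type} (z : ℕ → α) (s : Fin σ.m) (F : Fin (σ.ar s) × Fin m → α) : List α :=
  z s :: ((List.finRange (σ.ar s * m)).map (fun q => F (finProdFinEquiv.symm q)) ++
    List.replicate ((sigN σ m).width - σ.ar s * m) (z 0))

theorem rowB_length {α : Type} (z : ℕ → α) (s : Fin σ.m) (F : Fin (σ.ar s) × Fin m → α) :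
    (rowB m z s F).length = (sigN σ m).width + 1 := by
  have h : σ.ar s * m ≤ (sigN σ m).width :=
    Finset.le_sup (f := (sigN σ m).ar) (Finset.mem_univ s)
  simp only [rowB, List.length_cons, List.length_append, List.length_map, List.length_finRange,
    List.length_replicate]
  omega

theorem rowB_map (s : Fin σ.m) (F : Fin (σ.ar s) × Fin m → Ex) :
    (rowB m Ex.con s F).map (fun e => e.val l env) = rowB m id s (fun p => (F p).val l env) := by
  simp only [rowB, List.map_cons, List.map_append, List.map_map, List.map_replicate, Ex.val, id]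
  rfl

theorem rowB_getD {s : Fin σ.m} {F : Fin (σ.ar s) × Fin m → ℕ} (i : Fin (σ.ar s * m)) :
    (rowB m id s F).getD (i + 1) 0 = F (finProdFinEquiv.symm i) := by
  simp only [rowB, List.getD_cons_succ]
  rw [List.getD_append _ _ _ _ (by simp), List.getD_eq_getElem?_getD, List.getElem?_eq_getElem
    (by simp)]
  simp

/-- the rows with a given symbol -/
theorem rowB_mem {s s' : Fin σ.m} {F : Fin (σ.ar s) × Fin m → ℕ} {x : Fin (σ.ar s' * m) → ℕ} :
    ((rowB m id s F).getD 0 0 = (s' : ℕ) ∧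
      ∀ i : Fin (σ.ar s' * m), (rowB m id s F).getD (i + 1) 0 = x i) ↔
    ∃ h : s = s', ∀ p : Fin (σ.ar s') × Fin m,
      F (cast (by rw [h]) p) = x (finProdFinEquiv p) := by
  constructor
  · rintro ⟨h1, h2⟩
    have h : s = s' := Fin.ext h1
    subst h
    refine ⟨rfl, fun p => ?_⟩
    have := h2 (finProdFinEquiv p)
    rw [rowB_getD] at this
    simpa using this
  · rintro ⟨rfl, h⟩
    refine ⟨rfl, fun i => ?_⟩
    rw [rowB_getD]
    have h5 := h (finProdFinEquiv.symm i)
    rw [Equiv.apply_symm_apply] at h5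
    exact h5

end rows

section prog

variable {σ : Pool.Agent.H68.BP.Sig} (m : ℕ)

/-- the rows -/
def wB (σ : Pool.Agent.H68.BP.Sig) : Wg :=
  .loop eZ (Wg.many (List.finRange σ.m) (fun l => .cond (cC σ l)
      (.row (rowB m Ex.con l (fun p : Fin (σ.ar l) × Fin m =>
        .add (.con p.2) (.mul (.con m) (eE σ (p.1 + 1))))))))

/-- the whole program -/
def lgB (σ : Pool.Agent.H68.BP.Sig) : Lg :=
  cV.ite (.seq (.el (.mul eN (.con m))) (wB m σ).toLg) .nil

/-- the output -/
noncomputable def redB (σ : Pool.Agent.H68.BP.Sig) (x : List Bool) : List ℕ :=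
  (lgB m σ).out (ph (σ.width + 1) x) []

theorem polyOn_redB : PolyOn (fun w : List Bool => w) unary (redB m σ) :=
  ((polyOn_numsR.comp (polyOn_lg (lgF (σ.width + 1)))).comp (polyOn_lg (lgB m σ))).congr
    (fun q => q) (fun _ => rfl) (fun _ => rfl)

theorem redB_bad {x : List Bool} (h : ¬ cV.tv (ph (σ.width + 1) x) []) : redB m σ x = [] := by
  unfold redB lgB
  rw [Cd.ite_out, if_neg h]
  rfl

section

variable {n : ℕ} {L : List (List ℕ)} (hL : ∀ c ∈ L, c.length = σ.width + 1)

include hL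

theorem redB_code : ∃ L' : List (List ℕ), (∀ c ∈ L', c.length = (sigN σ m).width + 1) ∧
    unary (redB m σ (code n L)) = code (n * m) L' ∧
    ∀ c, c ∈ L' ↔ ∃ (l : Fin σ.m) (t : Fin (σ.ar l) → Fin n), strOf σ n L l t ∧
        c = rowB m id l (fun p : Fin (σ.ar l) × Fin m => p.2 + m * t p.1) := by
  obtain ⟨M, hM, h0, h1, h2, h3, h4⟩ := ph_vals (n := n) hL
  have hw : ∀ (l : Fin σ.m) (p : Fin (σ.ar l)), (p : ℕ) + 1 < σ.width + 1 := by
    intro l p
    have : σ.ar l ≤ σ.width := Finset.le_sup (f := σ.ar) (Finset.mem_univ l)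
    have := p.2
    omega
  have hV : cV.tv M [] := by
    simp only [cV, tv_and, tv_le, tv_eq, Ex.val, h0, h3]
    exact ⟨le_rfl, trivial⟩
  have hmem : ∀ c, c ∈ (wB m σ).out M [] ↔
      ∃ (l : Fin σ.m) (t : Fin (σ.ar l) → Fin n), strOf σ n L l t ∧
        c = rowB m id l (fun p : Fin (σ.ar l) × Fin m => p.2 + m * t p.1) := by
    intro c
    unfold wB
    rw [Wg.mem_loop]
    constructor
    · rintro ⟨j, hj, hm⟩
      rw [Wg.mem_many] at hm
      obtain ⟨l, -, hm⟩ := hm
      rw [Wg.mem_cond, Wg.mem_row, rowB_map] at hm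
      obtain ⟨hc, hm⟩ := hm
      simp only [cC, tv_and, tv_le, tv_eq, tv_all, tv_lt, eE, eZ, eN, Ex.val,
        List.getD_cons_zero, h1, h2] at hc
      obtain ⟨⟨c1, c2⟩, c3⟩ := hc
      have hj' : j < L.length := by
        have : (j + 1) * (σ.width + 1) ≤ L.length * (σ.width + 1) := by
          rw [Nat.mul_comm (j + 1)]
          omega
        exact Nat.lt_of_succ_le (Nat.le_of_mul_le_mul_right this (by omega))
      rw [h4 j hj' 0 (by omega)] at c2
      have c4 : ∀ p : Fin (σ.ar l), (L[j]).getD (p + 1) 0 < n := by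
        intro p
        have := c3 p (List.mem_finRange p)
        rwa [h4 j hj' _ (hw l p)] at this
      refine ⟨l, fun p => ⟨_, c4 p⟩, ⟨L[j], List.getElem_mem hj', c2, fun i => rfl⟩, ?_⟩
      rw [hm]
      congr 1
      funext p
      simp only [eE, Ex.val, List.getD_cons_zero]
      rw [h4 j hj' _ (hw l p.1)]
    · rintro ⟨l, t, ⟨c', hc', c1, c2⟩, hc⟩
      obtain ⟨j, hj, rfl⟩ := List.getElem_of_mem hc'
      refine ⟨j, ?_, ?_⟩
      · simp only [eZ, Ex.val, h1]
        have : L.length ≤ L.length * (σ.width + 1) := Nat.le_mul_of_pos_right _ (by omega)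
        omega
      · rw [Wg.mem_many]
        refine ⟨l, List.mem_finRange l, ?_⟩
        rw [Wg.mem_cond, Wg.mem_row, rowB_map]
        constructor
        · simp only [cC, tv_and, tv_le, tv_eq, tv_all, tv_lt, eE, eZ, eN, Ex.val,
            List.getD_cons_zero, h1, h2]
          refine ⟨⟨?_, ?_⟩, ?_⟩
          · have : (j + 1) * (σ.width + 1) ≤ L.length * (σ.width + 1) :=
              Nat.mul_le_mul_right _ hj
            rw [Nat.mul_comm (j + 1)] at this
            omega
          · rw [h4 j hj 0 (by omega)]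
            exact c1
          · intro p _
            rw [h4 j hj _ (hw l p), c2 p]
            exact (t p).2
        · rw [hc]
          congr 1
          funext p
          simp only [eE, Ex.val, List.getD_cons_zero]
          rw [h4 j hj _ (hw l p.1), c2 p.1]
  refine ⟨(wB m σ).out M [], ?_, ?_, hmem⟩
  · intro c hc
    obtain ⟨l, t, -, rfl⟩ := (hmem c).1 hc
    exact rowB_length m id _ _
  · unfold redB lgB
    rw [hM, Cd.ite_out, if_pos hV, code_eq]
    simp only [Lg.out, Wg.toLg_out, eN, Ex.val, h2, List.singleton_append]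

omit hL in
theorem str_redB {L' : List (List ℕ)} (hL' : ∀ c, c ∈ L' ↔
      ∃ (l : Fin σ.m) (t : Fin (σ.ar l) → Fin n), strOf σ n L l t ∧
        c = rowB m id l (fun p : Fin (σ.ar l) × Fin m => p.2 + m * t p.1)) :
    strOf (sigN σ m) (n * m) L' = blN m (strOf σ n L) := by
  have hfp : ∀ (y : Fin (n * m)) (x : Fin n) (j : Fin m),
      (j : ℕ) + m * x = y ↔ y = finProdFinEquiv (x, j) := by
    intro y x j
    rw [Fin.ext_iff]
    simp only [finProdFinEquiv_apply_val]
    exact eq_comm
  funext s x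
  apply propext
  have h1 : strOf (sigN σ m) (n * m) L' s x ↔ ∃ c ∈ L', c.getD 0 0 = (s : ℕ) ∧
      ∀ i : Fin (σ.ar s * m), c.getD (i + 1) 0 = (x i : ℕ) := Iff.rfl
  rw [h1]
  constructor
  · rintro ⟨c, hc, h2⟩
    obtain ⟨l', t, ht, rfl⟩ := (hL' c).1 hc
    obtain ⟨h3, h4⟩ := (rowB_mem m (x := fun i => (x i : ℕ))).1 h2
    have h3' : l' = s := h3
    subst h3'
    exact ⟨t, ht, fun q => (hfp _ _ _).1 (h4 q)⟩
  · rintro ⟨t, ht, hu⟩
    refine ⟨_, (hL' _).2 ⟨s, t, ht, rfl⟩, (rowB_mem m (x := fun i => (x i : ℕ))).2 ⟨rfl, ?_⟩⟩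
    intro p
    exact (hfp _ _ _).2 (hu p)

end

/-- Row CSN. -/
theorem pf_CSN : T_CSN := by
  intro V N σ m 𝔸 𝔸' hm hA
  refine manyOne (polyOn_redB m (σ := σ)) (Q := fun l => CSP 𝔸' (unary l) = true) (fun p => Iff.rfl)
    (fun x => ?_)
  by_cases h : cV.tv (ph (σ.width + 1) x) []
  · obtain ⟨n, L, h1, rfl⟩ := code_of_cV h
    obtain ⟨L', h2, h3, h4⟩ := redB_code m (n := n) h1
    rw [csp_code 𝔸 h1, h3, csp_code 𝔸' h2, str_redB m h4]
    exact hA n (strOf σ n L)
  · constructor
    · intro hx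
      obtain ⟨n, L, h1, rfl⟩ := csp_true 𝔸 hx
      obtain ⟨M, hM, h0, -, -, h3, -⟩ := ph_vals (n := n) h1
      refine absurd ?_ h
      rw [hM]
      simp only [cV, tv_and, tv_le, tv_eq, Ex.val, h0, h3]
      exact ⟨le_rfl, trivial⟩
    · intro hx
      rw [redB_bad m h] at hx
      exact absurd hx (Pool.Agent.H68.BT.csp_nil 𝔸')

end prog

end Pool.Agent.H20.CS
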