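import Pool.Agent.H57.CS.Targets
import Pool.Agent.H57.CN.Basics

/-!
# Row FLG of chsn_modules: finite tuples are given by names
-/

set_option autoImplicit false

namespace Pool.Agent.H20.CS

open Pool.Agent.H68.BP Pool.Agent.H58.SF Pool.Agent.H53.GC Pool.Agent.H53.NR
open Pool.Agent.H57.AR (tp ty Ty INJ)
open Pool.Agent.H72.CH
open Pool.Agent.H57.CN
open Pool.Agent.H57.CS
open Function

section

variable {V W : Type} {ρ : Sig} {𝔹 : Str ρ V} {m : ℕ} {lv : V → V → ℕ}

/-- the equivalence relation of the elements of the same class -/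
def std (hL : PLev m lv) (f : W → V) (i : Fin m) : Setoid W where
  r x y := (i : ℕ) + 1 ≤ lv (f x) (f y)
  iseqv :=
    { refl := fun x => by
        rw [hL.self]
        exact i.2
      symm := fun {x y} h => by
        rw [hL.sym]
        exact h
      trans := fun {x y z} h h' => le_trans (le_min h h') (hL.ult _ _ _) }

/-- the representative -/
noncomputable def rep (hL : PLev m lv) (f : W → V) (i : Fin m) (x : W) : W :=
  (Quotient.mk (std hL f i) x).out

theorem rep_eq (hL : PLev m lv) (f : W → V) (i : Fin m) (x y : W) :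
    rep hL f i x = rep hL f i y ↔ (i : ℕ) + 1 ≤ lv (f x) (f y) := by
  unfold rep
  constructor
  · intro h
    have h1 : Quotient.mk (std hL f i) x = Quotient.mk (std hL f i) y := by
      rw [← Quotient.out_eq (Quotient.mk (std hL f i) x), h, Quotient.out_eq]
    exact Quotient.exact h1
  · intro h
    have h1 : Quotient.mk (std hL f i) x = Quotient.mk (std hL f i) y := Quotient.sound h
    rw [h1]

/-- the flag of an element -/
noncomputable def fw (hL : PLev m lv) (f : W → V) (x : W) :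
    Fl (Prod.fst : Fin m × W → Fin m) :=
  ⟨fun i => (i, rep hL f i x), fun _ => rfl⟩

theorem fw_agr (hL : PLev m lv) (f : W → V) (x y : W) (j : ℕ) (hj : j ≤ m) :
    Agr j (fw hL f x).1 (fw hL f y).1 ↔ j ≤ lv (f x) (f y) := by
  constructor
  · intro h
    rcases Nat.eq_zero_or_pos j with h0 | h0
    · rw [h0]
      exact Nat.zero_le _
    · have h1 := h ⟨j - 1, by omega⟩ (by simp only; omega)
      have h2 : rep hL f ⟨j - 1, by omega⟩ x = rep hL f ⟨j - 1, by omega⟩ y :=
        congrArg Prod.snd h1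
      have h3 := (rep_eq hL f _ x y).1 h2
      simp only at h3
      omega
  · intro h i hi
    have h1 : rep hL f i x = rep hL f i y := (rep_eq hL f i x y).2 (by omega)
    exact Prod.ext rfl h1

theorem agl_fw (hL : PLev m lv) (f : W → V) (x y : W) :
    agl (fw hL f x).1 (fw hL f y).1 = lv (f x) (f y) := by
  apply le_antisymm
  · exact (fw_agr hL f x y _ (agl_le _ _)).1 (agr_agl _ _)
  · exact (le_agl (hL.le _ _)).2 ((fw_agr hL f x y _ (hL.le _ _)).2 le_rfl)

theorem ex_max [Finite W] [Nonempty W] (φ : W → ℕ) : ∃ x, ∀ y, φ y ≤ φ x :=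
  Finite.exists_max φ

/-- a place of the maximum, which depends only on the function -/
noncomputable def am [Finite W] [Nonempty W] (φ : W → ℕ) : W := (ex_max φ).choose

theorem am_spec [Finite W] [Nonempty W] (φ : W → ℕ) (y : W) : φ y ≤ φ (am φ) :=
  (ex_max φ).choose_spec y

/-- agreement with all flags -/
noncomputable def ph (hL : PLev m lv) (f : W → V) (u : Fl (Prod.fst : Fin m × W → Fin m)) :
    W → ℕ := fun x => agl u.1 (fw hL f x).1

/-- the map of the flags -/
noncomputable def FF [Finite W] [Nonempty W] (hL : PLev m lv) (f : W → V)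
    (u : Fl (Prod.fst : Fin m × W → Fin m)) : V := f (am (ph hL f u))

theorem FF_fw [Finite W] [Nonempty W] (hL : Lev m lv) (f : W → V) (x : W) :
    FF hL.pl f (fw hL.pl f x) = f x := by
  unfold FF
  have h1 := am_spec (ph hL.pl f (fw hL.pl f x)) x
  unfold ph at h1
  rw [agl_fw, agl_fw, hL.pl.self] at h1
  have h2 : lv (f x) (f (am (ph hL.pl f (fw hL.pl f x)))) = m :=
    le_antisymm (hL.pl.le _ _) h1
  exact (hL.eq _ _ h2).symm

theorem ph_eq (hL : PLev m lv) (f : W → V) (u u' : Fl (Prod.fst : Fin m × W → Fin m))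
    (h : ∀ x, ph hL f u x < agl u.1 u'.1) : ph hL f u = ph hL f u' := by
  funext x
  have h1 := h x
  unfold ph at h1 ⊢
  have h2 := (plev_agl (W := Fin m × W) (m := m)).ult u'.1 u.1 (fw hL f x).1
  have h3 := (plev_agl (W := Fin m × W) (m := m)).ult u.1 u'.1 (fw hL f x).1
  rw [(plev_agl (W := Fin m × W) (m := m)).sym u'.1 u.1] at h2
  apply le_antisymm
  · exact le_trans (le_min h1.le le_rfl) h2
  · by_contra hc
    push Not at hc
    have h4 : agl u.1 (fw hL f x).1 < min (agl u.1 u'.1) (agl u'.1 (fw hL f x).1) :=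
      lt_min h1 hc
    exact absurd h3 (not_le.2 h4)

theorem FF_lv [Finite W] [Nonempty W] (hL : PLev m lv) (f : W → V)
    (u u' : Fl (Prod.fst : Fin m × W → Fin m)) : agl u.1 u'.1 ≤ lv (FF hL f u) (FF hL f u') := by
  by_cases h1 : agl u.1 u'.1 ≤ ph hL f u (am (ph hL f u))
  · by_cases h2 : agl u.1 u'.1 ≤ ph hL f u' (am (ph hL f u'))
    · unfold FF
      rw [← fw_agr hL f _ _ _ (agl_le _ _)]
      have e1 : Agr (agl u.1 u'.1) (fw hL f (am (ph hL f u))).1 u.1 :=
        agr_sym (agr_mono h1 (agr_agl _ _))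
      have e2 : Agr (agl u.1 u'.1) u'.1 (fw hL f (am (ph hL f u'))).1 :=
        agr_mono h2 (agr_agl _ _)
      exact agr_trans (agr_trans e1 (agr_agl _ _)) e2
    · push Not at h2
      have h3 : ph hL f u' = ph hL f u := by
        apply ph_eq
        intro x
        rw [(plev_agl (W := Fin m × W) (m := m)).sym u'.1 u.1]
        exact lt_of_le_of_lt (am_spec _ x) h2
      unfold FF
      rw [h3, hL.self]
      exact agl_le _ _
  · push Not at h1
    have h3 : ph hL f u = ph hL f u' := by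
      apply ph_eq
      intro x
      exact lt_of_le_of_lt (am_spec _ x) h1
    unfold FF
    rw [h3, hL.self]
    exact agl_le _ _

/-- local maps -/
theorem exF (hV : HV 𝔹 m lv) [Finite W] (f : W → V) :
    ∃ F : Fl (Prod.fst : Fin m × W → Fin m) → V,
      (∀ u u', agl u.1 u'.1 ≤ lv (F u) (F u')) ∧ ∀ x, F (fw hV.lev.pl f x) = f x := by
  rcases isEmpty_or_nonempty W with h | h
  · obtain ⟨v⟩ := hV.ne
    refine ⟨fun _ => v, fun u u' => ?_, fun x => (h.false x).elim⟩
    rw [hV.lev.pl.self]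
    exact agl_le _ _
  · exact ⟨FF hV.lev.pl f, FF_lv hV.lev.pl f, FF_fw hV.lev f⟩

end

theorem pf_FLG (hRLX : Pool.Agent.H57.CN.T_RLX) : T_FLG := by
  intro V ρ 𝔹 m lv hV W _ f
  have hL := hV.lev.pl
  obtain ⟨r, hr, hr2⟩ : ∃ r : ℕ, (∀ l, ρ.ar l ≤ r) ∧ 2 ≤ r :=
    ⟨Finset.univ.sup ρ.ar + 2, fun l => le_trans (Finset.le_sup (Finset.mem_univ l)) (by omega),
      by omega⟩
  obtain ⟨M, hM⟩ := hRLX V ρ 𝔹 m lv hV r
  obtain ⟨F, hF1, hF2⟩ := exF hV f
  obtain ⟨g, hg1, hg2⟩ := hM (Fl (Prod.fst : Fin m × W → Fin m)) (Fin r → W)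
    (fun u u' => agl u.1 u'.1) (fun a i => fw hL f (a i)) (fun a i => f (a i))
    ⟨fun u u' => agl_le _ _, fun u => plev_agl.self _, fun u u' => plev_agl.sym _ _,
      fun u u' u'' => plev_agl.ult _ _ _⟩
    (fun u u' h => Subtype.ext (agl_eq h)) (fun a i j => (agl_fw hL f (a i) (a j)).symm)
    (fun U _ => ⟨F, fun u _ u' _ => hF1 u u', fun a _ => by
      have h1 : (fun i => F (fw hL f (a i))) = fun i => f (a i) := funext fun i => hF2 (a i)
      rw [h1]⟩)
  refine ⟨Fin m × W, inferInstance, Prod.fst, fw hL f, g, ?_, ?_⟩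
  · intro u u' j hj
    rw [hg1]
    exact le_agl hj
  · exact tp_of_small r hr hr2 fun z => hg2 z

end Pool.Agent.H20.CS
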